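import Mathlib

/-!
# Injective entire functions that are proper are affine
-/

set_option autoImplicit false

open Filter Topology Set Bornology

namespace Pool.Agent.TH311.LC

theorem affine_of_proper {E : ℂ → ℂ} (hd : Differentiable ℂ E) (hi : Function.Injective E)
    (hinf : Tendsto E (cobounded ℂ) (cobounded ℂ)) :
    ∃ a b : ℂ, a ≠ 0 ∧ ∀ w, E w = a * w + b := by
  obtain ⟨c, hc⟩ : ∃ c, deriv E c ≠ 0 := by
    by_contra hcon
    push Not at hcon
    have := is_const_of_deriv_eq_zero hd hcon 0 1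
    exact zero_ne_one (hi this)
  set P := dslope E c with hP
  have hPd : Differentiable ℂ P := by
    rw [← differentiableOn_univ]
    exact (Complex.differentiableOn_dslope univ_mem).2 hd.differentiableOn
  have hPw : ∀ w, w ≠ c → P w = (E w - E c) / (w - c) := by
    intro w hw
    rw [hP, dslope_of_ne _ hw, slope_def_field]
  have hP0 : ∀ w, P w ≠ 0 := by
    intro w
    by_cases hw : w = c
    · rw [hw, hP, dslope_same]; exact hc
    · rw [hPw w hw]
      exact div_ne_zero (sub_ne_zero.2 (hi.ne hw)) (sub_ne_zero.2 hw)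
  have hQ0 : Tendsto (fun ζ : ℂ => (E ζ⁻¹ - E c)⁻¹) (𝓝[≠] 0) (𝓝 0) := by
    have h1 : Tendsto (fun ζ : ℂ => E ζ⁻¹ - E c) (𝓝[≠] 0) (cobounded ℂ) := by
      have h2 := hinf.comp (tendsto_inv₀_nhdsNE_zero (α := ℂ))
      exact (tendsto_sub_const_cobounded (E c)).comp h2
    exact tendsto_inv₀_cobounded.comp h1
  set Q : ℂ → ℂ := Function.update (fun ζ : ℂ => (E ζ⁻¹ - E c)⁻¹) 0 0 with hQ
  have hQc : ContinuousAt Q 0 := continuousAt_update_same.2 hQ0
  have hne : ∀ᶠ ζ in 𝓝[≠] (0 : ℂ), ζ ≠ 0 ∧ ζ⁻¹ ≠ c := by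
    have h1 : ∀ᶠ ζ in 𝓝[≠] (0 : ℂ), ζ ≠ 0 := eventually_mem_nhdsWithin
    have h2 : ∀ᶠ w in cobounded ℂ, w ≠ c :=
      isBounded_def.1 (isBounded_singleton (α := ℂ) (x := c))
    exact h1.and ((tendsto_inv₀_nhdsNE_zero (α := ℂ)).eventually h2)
  have hQd : ∀ᶠ ζ in 𝓝[≠] (0 : ℂ), DifferentiableAt ℂ Q ζ := by
    filter_upwards [hne] with ζ hζ
    have h1 : DifferentiableAt ℂ (fun ζ : ℂ => (E ζ⁻¹ - E c)⁻¹) ζ := by
      refine DifferentiableAt.inv ?_ (sub_ne_zero.2 (hi.ne hζ.2))
      exact ((hd ζ⁻¹).comp ζ (differentiableAt_inv hζ.1)).sub_const _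
    refine h1.congr_of_eventuallyEq ?_
    filter_upwards [isOpen_ne.mem_nhds hζ.1] with z hz
    rw [hQ, Function.update_of_ne hz]
  have hQa := Complex.analyticAt_of_differentiable_on_punctured_nhds_of_continuousAt hQd hQc
  obtain ⟨C, hC0, hC⟩ := hQa.differentiableAt.isBigO_sub.exists_pos
  rw [Asymptotics.isBigOWith_iff] at hC
  have hQ00 : Q 0 = 0 := by rw [hQ, Function.update_self]
  have hbd : ∀ᶠ w in cobounded ℂ, ‖(P w)⁻¹‖ ≤ 2 * C := by
    have h1 := (tendsto_inv₀_cobounded (α := ℂ)).eventually hC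
    have h2 : ∀ᶠ w in cobounded ℂ, ‖c‖ + 1 ≤ ‖w‖ :=
      tendsto_norm_cobounded_atTop.eventually (eventually_ge_atTop _)
    filter_upwards [h1, h2] with w hw hw2
    have hw0 : w ≠ 0 := by
      rintro rfl
      rw [norm_zero] at hw2
      linarith [norm_nonneg c]
    have hwc : w ≠ c := by
      rintro rfl
      linarith
    rw [hQ00, sub_zero, sub_zero, hQ, Function.update_of_ne (inv_ne_zero hw0), inv_inv] at hw
    rw [hPw w hwc, inv_div, div_eq_mul_inv, norm_mul]
    have h3 : ‖w - c‖ ≤ 2 * ‖w‖ := by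
      have := norm_sub_le w c
      linarith
    have hwn : 0 < ‖w‖ := norm_pos_iff.2 hw0
    calc ‖w - c‖ * ‖(E w - E c)⁻¹‖ ≤ (2 * ‖w‖) * (C * ‖w⁻¹‖) := by
          exact mul_le_mul h3 hw (norm_nonneg _) (by positivity)
      _ = 2 * C := by
          rw [norm_inv]
          field_simp
  have hPi : Differentiable ℂ fun w => (P w)⁻¹ := fun w => (hPd w).inv (hP0 w)
  have hrange : IsBounded (range fun w => (P w)⁻¹) := by
    obtain ⟨R, hR⟩ := (hasBasis_cobounded_norm (E := ℂ)).eventually_iff.1 hbd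
    have h1 : range (fun w => (P w)⁻¹) ⊆
        (fun w => (P w)⁻¹) '' Metric.closedBall 0 R ∪ Metric.closedBall 0 (2 * C) := by
      rintro _ ⟨w, rfl⟩
      by_cases hw : ‖w‖ ≤ R
      · left
        exact ⟨w, by simpa using hw, rfl⟩
      · right
        have := hR.2 (x := w) (by simpa using (not_le.1 hw).le)
        simpa using this
    refine IsBounded.subset (IsBounded.union ?_ Metric.isBounded_closedBall) h1
    exact ((isCompact_closedBall 0 R).image hPi.continuous).isBounded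
  have hconst : ∀ w, P w = P c := by
    intro w
    have := hPi.apply_eq_apply_of_bounded hrange w c
    exact inv_injective this
  refine ⟨P c, E c - P c * c, hP0 c, fun w => ?_⟩
  have h1 := sub_smul_dslope E c w
  rw [← hP, hconst w, smul_eq_mul] at h1
  linear_combination -h1

theorem moebius_of_pole {F : ℂ → ℂ} {w₀ w₁ : ℂ} (hd : ∀ w, w ≠ w₀ → DifferentiableAt ℂ F w)
    (hi : InjOn F {w₀}ᶜ) (hne : ∀ w, w ≠ w₀ → F w ≠ w₁)
    (hpole : Tendsto F (𝓝[≠] w₀) (cobounded ℂ)) (hinf : Tendsto F (cobounded ℂ) (𝓝 w₁)) :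
    ∃ a b : ℂ, a ≠ 0 ∧ ∀ w, w ≠ w₀ → a * w + b ≠ 0 ∧ F w = w₁ + (a * w + b)⁻¹ := by
  set E : ℂ → ℂ := Function.update (fun w => (F w - w₁)⁻¹) w₀ 0 with hE
  have hEw : ∀ w, w ≠ w₀ → E w = (F w - w₁)⁻¹ := fun w hw => by
    rw [hE, Function.update_of_ne hw]
  have hE0 : E w₀ = 0 := by rw [hE, Function.update_self]
  have hEc : ContinuousAt E w₀ := by
    refine continuousAt_update_same.2 ?_
    exact tendsto_inv₀_cobounded.comp ((tendsto_sub_const_cobounded w₁).comp hpole)
  have hEd' : ∀ w, w ≠ w₀ → DifferentiableAt ℂ E w := by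
    intro w hw
    have h1 : DifferentiableAt ℂ (fun w => (F w - w₁)⁻¹) w :=
      ((hd w hw).sub_const _).inv (sub_ne_zero.2 (hne w hw))
    refine h1.congr_of_eventuallyEq ?_
    filter_upwards [isOpen_ne.mem_nhds hw] with z hz
    exact hEw z hz
  have hEd : Differentiable ℂ E := by
    intro w
    by_cases hw : w = w₀
    · subst hw
      refine (Complex.analyticAt_of_differentiable_on_punctured_nhds_of_continuousAt ?_
        hEc).differentiableAt
      filter_upwards [self_mem_nhdsWithin] with z hz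
      exact hEd' z hz
    · exact hEd' w hw
  have hEi : Function.Injective E := by
    intro w w' h
    by_cases hw : w = w₀
    · by_cases hw' : w' = w₀
      · rw [hw, hw']
      · rw [hw, hE0, hEw w' hw'] at h
        exact absurd h.symm (inv_ne_zero (sub_ne_zero.2 (hne w' hw')))
    · by_cases hw' : w' = w₀
      · rw [hw', hE0, hEw w hw] at h
        exact absurd h (inv_ne_zero (sub_ne_zero.2 (hne w hw)))
      · rw [hEw w hw, hEw w' hw'] at h
        have h1 := inv_injective h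
        exact hi hw hw' (by linear_combination h1)
  have hEinf : Tendsto E (cobounded ℂ) (cobounded ℂ) := by
    have h2 : ∀ᶠ w in cobounded ℂ, w ≠ w₀ :=
      isBounded_def.1 (isBounded_singleton (α := ℂ) (x := w₀))
    have h1 : Tendsto (fun w => F w - w₁) (cobounded ℂ) (𝓝[≠] 0) := by
      rw [tendsto_nhdsWithin_iff]
      refine ⟨?_, ?_⟩
      · simpa using hinf.sub_const w₁
      · filter_upwards [h2] with w hw
        exact sub_ne_zero.2 (hne w hw)
    refine ((tendsto_inv₀_nhdsNE_zero (α := ℂ)).comp h1).congr' ?_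
    filter_upwards [h2] with w hw
    exact (hEw w hw).symm
  obtain ⟨a, b, ha, hab⟩ := affine_of_proper hEd hEi hEinf
  refine ⟨a, b, ha, fun w hw => ?_⟩
  have h1 := hEw w hw
  rw [hab] at h1
  have h2 : F w - w₁ ≠ 0 := sub_ne_zero.2 (hne w hw)
  refine ⟨?_, ?_⟩
  · rw [h1]
    exact inv_ne_zero h2
  · rw [h1, inv_inv]
    ring

end Pool.Agent.TH311.LC
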