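import Mathlib

/-!
# Koenigs linearization
-/

set_option autoImplicit false

open Filter Topology Set

namespace Pool.Agent.TH311.LC

theorem koenigs {H : ℂ → ℂ} (hH : AnalyticAt ℂ H 0) (h0 : H 0 = 0) (hl0 : deriv H 0 ≠ 0)
    (hl1 : ‖deriv H 0‖ < 1) :
    ∃ ψ : ℂ → ℂ, AnalyticAt ℂ ψ 0 ∧ ψ 0 = 0 ∧ deriv ψ 0 = 1 ∧
      ∀ᶠ z in 𝓝 0, ψ (H z) = deriv H 0 * ψ z := by
  set l := deriv H 0 with hl
  have hln : 0 < ‖l‖ := norm_pos_iff.2 hl0
  obtain ⟨ρ₀, hρ₀, hd₀⟩ : ∃ ρ > 0, DifferentiableOn ℂ H (Metric.ball 0 ρ) := by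
    obtain ⟨ρ, hρ, h⟩ := Metric.eventually_nhds_iff_ball.1 hH.eventually_analyticAt
    exact ⟨ρ, hρ, fun z hz => (h z hz).differentiableAt.differentiableWithinAt⟩
  set K := dslope H 0 with hK
  have hKd : DifferentiableAt ℂ K 0 :=
    ((Complex.differentiableOn_dslope (Metric.ball_mem_nhds 0 hρ₀)).2 hd₀).differentiableAt
      (Metric.ball_mem_nhds 0 hρ₀)
  have hK0 : K 0 = l := by rw [hK, dslope_same]
  have hHK : ∀ z, H z = z * K z := by
    intro z
    have := sub_smul_dslope H 0 z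
    rw [sub_zero, h0, sub_zero, smul_eq_mul] at this
    exact this.symm
  obtain ⟨C, hC0, hC⟩ := hKd.isBigO_sub.exists_pos
  rw [Asymptotics.isBigOWith_iff] at hC
  obtain ⟨ρ₁, hρ₁, hC⟩ := Metric.eventually_nhds_iff_ball.1 hC
  set r := Real.sqrt ((‖l‖ ^ 2 + ‖l‖) / 2) with hr
  have hr2 : r ^ 2 = (‖l‖ ^ 2 + ‖l‖) / 2 := Real.sq_sqrt (by positivity)
  have hr0 : 0 ≤ r := Real.sqrt_nonneg _
  have hlr : ‖l‖ < r := by
    apply lt_of_pow_lt_pow_left₀ 2 hr0
    rw [hr2]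
    nlinarith
  have hr2l : r ^ 2 < ‖l‖ := by
    rw [hr2]
    nlinarith
  have hr1 : r < 1 := by
    apply lt_of_pow_lt_pow_left₀ 2 zero_le_one
    nlinarith
  set q := r ^ 2 / ‖l‖ with hq
  have hq0 : 0 ≤ q := by positivity
  have hq1 : q < 1 := by rw [hq, div_lt_one hln]; exact hr2l
  set ρ := min ρ₀ (min ρ₁ ((r - ‖l‖) / C)) with hρ
  have hρ0 : 0 < ρ := by
    have : 0 < (r - ‖l‖) / C := div_pos (by linarith) hC0
    positivity
  set B := Metric.ball (0 : ℂ) ρ with hB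
  have hmem : ∀ z ∈ B, ‖z‖ < ρ₀ ∧ ‖z‖ < ρ₁ ∧ ‖z‖ * C < r - ‖l‖ := by
    intro z hz
    have h1 : ‖z‖ < ρ := by simpa [hB] using hz
    have h2 := lt_min_iff.1 (hρ ▸ h1)
    have h3 := lt_min_iff.1 h2.2
    exact ⟨h2.1, h3.1, (lt_div_iff₀ hC0).1 h3.2⟩
  have hest : ∀ z ∈ B, ‖H z - l * z‖ ≤ C * ‖z‖ ^ 2 := by
    intro z hz
    have h1 := hC z (by simpa using (hmem z hz).2.1)
    rw [hK0, sub_zero] at h1
    have h2 : H z - l * z = z * (K z - l) := by rw [hHK]; ring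
    rw [h2, norm_mul]
    have := mul_le_mul_of_nonneg_left h1 (norm_nonneg z)
    nlinarith
  have hcon : ∀ z ∈ B, ‖H z‖ ≤ r * ‖z‖ := by
    intro z hz
    have h1 := hest z hz
    have h2 : ‖H z‖ ≤ ‖H z - l * z‖ + ‖l * z‖ := by
      have := norm_add_le (H z - l * z) (l * z)
      rwa [sub_add_cancel] at this
    rw [norm_mul] at h2
    have h3 := (hmem z hz).2.2
    have h4 := norm_nonneg z
    nlinarith
  have hmaps : MapsTo H B B := by
    intro z hz
    have h1 := hcon z hz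
    have h2 : ‖z‖ < ρ := by simpa [hB] using hz
    have h3 : ‖H z‖ < ρ := by nlinarith [norm_nonneg z]
    simpa [hB] using h3
  have hit : ∀ n : ℕ, ∀ z ∈ B, H^[n] z ∈ B ∧ ‖H^[n] z‖ ≤ r ^ n * ‖z‖ := by
    intro n
    induction n with
    | zero => intro z hz; simpa using hz
    | succ n ih =>
      intro z hz
      obtain ⟨h1, h2⟩ := ih z hz
      rw [Function.iterate_succ_apply']
      refine ⟨hmaps h1, (hcon _ h1).trans ?_⟩
      rw [pow_succ]
      nlinarith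
  set F : ℕ → ℂ → ℂ := fun n z => (l ^ (n + 1))⁻¹ * (H (H^[n] z) - l * H^[n] z) with hF
  have hFb : ∀ n, ∀ z ∈ B, ‖F n z‖ ≤ C / ‖l‖ * ‖z‖ ^ 2 * q ^ n := by
    intro n z hz
    obtain ⟨h1, h2⟩ := hit n z hz
    have h3 := hest _ h1
    simp only [hF]
    rw [norm_mul, norm_inv, norm_pow]
    have h4 : ‖H^[n] z‖ ^ 2 ≤ (r ^ n * ‖z‖) ^ 2 := by
      have := norm_nonneg (H^[n] z)
      exact pow_le_pow_left₀ this h2 2
    calc (‖l‖ ^ (n + 1))⁻¹ * ‖H (H^[n] z) - l * H^[n] z‖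
        ≤ (‖l‖ ^ (n + 1))⁻¹ * (C * (r ^ n * ‖z‖) ^ 2) := by
          refine mul_le_mul_of_nonneg_left (h3.trans ?_) (by positivity)
          exact mul_le_mul_of_nonneg_left h4 hC0.le
      _ = C / ‖l‖ * ‖z‖ ^ 2 * q ^ n := by
          rw [hq, div_pow]
          field_simp
          ring
  have hFd : ∀ n, DifferentiableOn ℂ (F n) B := by
    intro n
    have hd : DifferentiableOn ℂ H B := hd₀.mono (by
      intro z hz
      simpa using (hmem z hz).1)
    have h1 : DifferentiableOn ℂ (H^[n]) B := hd.iterate hmaps n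
    have h2 : DifferentiableOn ℂ (fun z => H (H^[n] z)) B :=
      hd.comp h1 (fun z hz => (hit n z hz).1)
    exact (h2.sub (h1.const_mul l)).const_mul _
  have hsum : ∀ c : ℝ, Summable fun n : ℕ => c * q ^ n := fun c =>
    (summable_geometric_of_lt_one hq0 hq1).mul_left c
  set ψ : ℂ → ℂ := fun z => z + ∑' n, F n z with hψ
  have hψd : DifferentiableOn ℂ ψ B := by
    refine differentiableOn_id.add ?_
    refine Complex.differentiableOn_tsum_of_summable_norm (hsum (C / ‖l‖ * ρ ^ 2)) hFd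
      Metric.isOpen_ball fun n z hz => (hFb n z hz).trans ?_
    have h1 : ‖z‖ < ρ := by simpa [hB] using hz
    have h2 : ‖z‖ ^ 2 ≤ ρ ^ 2 := pow_le_pow_left₀ (norm_nonneg z) h1.le 2
    have h3 : C / ‖l‖ * ‖z‖ ^ 2 ≤ C / ‖l‖ * ρ ^ 2 :=
      mul_le_mul_of_nonneg_left h2 (by positivity)
    exact mul_le_mul_of_nonneg_right h3 (by positivity)
  have hψe : ∀ z ∈ B, ‖ψ z - z‖ ≤ C / ‖l‖ * (1 - q)⁻¹ * ‖z ^ 2‖ := by
    intro z hz
    have h1 : ψ z - z = ∑' n, F n z := by simp only [hψ]; ring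
    rw [h1]
    have h2 := (hasSum_geometric_of_lt_one hq0 hq1).mul_left (C / ‖l‖ * ‖z‖ ^ 2)
    have h3 := tsum_of_norm_bounded h2 (fun n => hFb n z hz)
    rw [norm_pow]
    calc _ ≤ _ := h3
      _ = _ := by ring
  have hBn : B ∈ 𝓝 (0 : ℂ) := Metric.ball_mem_nhds 0 hρ0
  have hψ0 : ψ 0 = 0 := by
    have := hψe 0 (mem_of_mem_nhds hBn)
    simpa using this
  refine ⟨ψ, hψd.analyticAt hBn, hψ0, ?_, ?_⟩
  · have : HasDerivAt ψ 1 0 := by
      rw [hasDerivAt_iff_isLittleO]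
      simp only [hψ0, sub_zero, smul_eq_mul, mul_one]
      refine Asymptotics.IsBigO.trans_isLittleO (g := fun z : ℂ => z ^ 2) ?_
        (Asymptotics.isLittleO_pow_id one_lt_two)
      refine Asymptotics.IsBigO.of_bound (C / ‖l‖ * (1 - q)⁻¹) ?_
      filter_upwards [hBn] with z hz
      exact hψe z hz
    exact this.deriv
  · filter_upwards [hBn] with z hz
    have hs : Summable fun n => F n z :=
      Summable.of_norm_bounded (hsum _) (fun n => hFb n z hz)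
    have h1 : ∀ n, F n (H z) = l * F (n + 1) z := by
      intro n
      simp only [hF]
      rw [Function.iterate_succ_apply, pow_succ l (n + 1)]
      have : l ^ (n + 1) ≠ 0 := pow_ne_zero _ hl0
      field_simp
    simp only [hψ]
    simp only [h1]
    rw [tsum_mul_left, hs.tsum_eq_zero_add]
    have h2 : F 0 z = l⁻¹ * (H z - l * z) := by simp [hF]
    rw [h2]
    field_simp
    ring

end Pool.Agent.TH311.LC
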