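import Pool.Agent.TH311.LM.L1

/-!
# The Riemann sphere as the boundary of hyperbolic 3-space
-/

set_option autoImplicit false

open Filter Topology Set Bornology
open Pool.Agent.TH289.C Pool.Agent.TH311.LM

namespace Pool.Agent.TH311.LC

abbrev E3 : Type := EuclideanSpace ℝ (Fin 3)

/-- A linear map preserving the form and the upper sheet. -/
theorem mkT (A : (ℝ × E3) →ₗ[ℝ] (ℝ × E3)) (hA : ∀ v, qf (A v) = qf v) (h1 : 0 < (A (1, 0)).1) :
    ∃ T : IG E3, ∀ v, (T : (ℝ × E3) ≃L[ℝ] (ℝ × E3)) v = A v := by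
  have hinj : Function.Injective A := by
    rw [← LinearMap.ker_eq_bot, LinearMap.ker_eq_bot']
    intro v hv
    have hb : ∀ w, bf v w = 0 := by
      intro w
      have h2 := qf_add v w
      have h3 := qf_add (A v) (A w)
      rw [← map_add, hA, hA, hA, hv] at h3
      have h4 : bf (0 : ℝ × E3) (A w) = 0 := by simp [bf]
      rw [h4] at h3
      linarith
    have h5 := hb (v.1, -v.2)
    unfold bf at h5
    rw [inner_neg_right, real_inner_self_eq_norm_sq] at h5
    simp only at h5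
    have h6 : v.1 = 0 := by nlinarith [sq_nonneg ‖v.2‖, sq_nonneg v.1]
    have h7 : ‖v.2‖ = 0 := by nlinarith [sq_nonneg ‖v.2‖, sq_nonneg v.1, norm_nonneg v.2]
    exact Prod.ext h6 (norm_eq_zero.1 h7)
  set T := (LinearEquiv.ofInjectiveEndo A hinj).toContinuousLinearEquiv with hT
  have hTA : ∀ v, T v = A v := fun v => rfl
  exact ⟨⟨T, fun v => by rw [hTA, hA], by rw [hTA]; exact h1⟩, hTA⟩

/-- Stereographic parametrization, before normalization. -/
noncomputable def vec (z : ℂ) : E3 := !₂[2 * z.re, 2 * z.im, z.re ^ 2 + z.im ^ 2 - 1]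

theorem norm_vec (z : ℂ) : ‖vec z‖ = 1 + z.re ^ 2 + z.im ^ 2 := by
  have h : ‖vec z‖ ^ 2 = (1 + z.re ^ 2 + z.im ^ 2) ^ 2 := by
    rw [EuclideanSpace.real_norm_sq_eq, Fin.sum_univ_three]
    simp [vec]
    ring
  have h1 : (0 : ℝ) ≤ 1 + z.re ^ 2 + z.im ^ 2 := by positivity
  exact (pow_left_inj₀ (norm_nonneg _) h1 two_ne_zero).1 h

/-- Stereographic parametrization of the sphere. -/
noncomputable def sig (z : ℂ) : Sph E3 :=
  ⟨(1 + z.re ^ 2 + z.im ^ 2)⁻¹ • vec z, by
    have h1 : (0 : ℝ) < 1 + z.re ^ 2 + z.im ^ 2 := by positivity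
    rw [mem_sphere_zero_iff_norm, norm_smul, norm_vec, norm_inv, Real.norm_of_nonneg h1.le,
      inv_mul_cancel₀ h1.ne']⟩

/-- The north pole. -/
noncomputable def north : Sph E3 :=
  ⟨!₂[0, 0, 1], by
    rw [mem_sphere_zero_iff_norm]
    have h : ‖(!₂[0, 0, 1] : E3)‖ ^ 2 = 1 ^ 2 := by
      rw [EuclideanSpace.real_norm_sq_eq, Fin.sum_univ_three]
      simp
    exact (pow_left_inj₀ (norm_nonneg _) zero_le_one two_ne_zero).1 h⟩

/-- Stereographic projection. -/
noncomputable def pr (v : Sph E3) : ℂ := ⟨(v : E3) 0 / (1 - (v : E3) 2), (v : E3) 1 / (1 - (v : E3) 2)⟩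

theorem continuous_sig : Continuous sig := by
  unfold sig
  refine Continuous.subtype_mk ?_ _
  have h1 : Continuous fun z : ℂ => (1 + z.re ^ 2 + z.im ^ 2)⁻¹ := by
    refine Continuous.inv₀ (by fun_prop) fun z => ?_
    positivity
  have h2 : Continuous vec := by
    unfold vec
    fun_prop
  exact h1.smul h2

theorem sig_coe (z : ℂ) (i : Fin 3) :
    ((sig z : Sph E3) : E3) i = (1 + z.re ^ 2 + z.im ^ 2)⁻¹ * vec z i := rfl

theorem pr_sig (z : ℂ) : pr (sig z) = z := by
  have h1 : (0 : ℝ) < 1 + z.re ^ 2 + z.im ^ 2 := by positivity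
  have h2 : 1 - ((sig z : Sph E3) : E3) 2 = 2 * (1 + z.re ^ 2 + z.im ^ 2)⁻¹ := by
    rw [sig_coe]
    simp [vec]
    field_simp
    ring
  apply Complex.ext
  · simp only [pr]
    rw [h2, sig_coe]
    simp [vec]
    field_simp
  · simp only [pr]
    rw [h2, sig_coe]
    simp [vec]
    field_simp

theorem two_eq {v : Sph E3} : (v : E3) 0 ^ 2 + (v : E3) 1 ^ 2 + (v : E3) 2 ^ 2 = 1 := by
  have h := norm_coe v
  have h2 : ‖(v : E3)‖ ^ 2 = 1 := by rw [h]; norm_num
  rwa [EuclideanSpace.real_norm_sq_eq, Fin.sum_univ_three] at h2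

theorem ne_north {v : Sph E3} : v ≠ north ↔ (v : E3) 2 ≠ 1 := by
  rw [not_iff_not]
  constructor
  · rintro rfl
    simp [north]
  · intro h
    have h1 := two_eq (v := v)
    rw [h] at h1
    have h2 : (v : E3) 0 = 0 := by nlinarith [sq_nonneg ((v : E3) 0), sq_nonneg ((v : E3) 1)]
    have h3 : (v : E3) 1 = 0 := by nlinarith [sq_nonneg ((v : E3) 0), sq_nonneg ((v : E3) 1)]
    apply Subtype.ext
    ext i
    fin_cases i
    · simpa [north] using h2
    · simpa [north] using h3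
    · simpa [north] using h

theorem sig_ne (z : ℂ) : sig z ≠ north := by
  rw [ne_north, sig_coe]
  have h1 : (0 : ℝ) < 1 + z.re ^ 2 + z.im ^ 2 := by positivity
  simp only [vec]
  intro h
  rw [inv_mul_eq_iff_eq_mul₀ h1.ne'] at h
  simp at h
  linarith

theorem sig_pr {v : Sph E3} (hv : v ≠ north) : sig (pr v) = v := by
  have h := ne_north.1 hv
  have h1 := two_eq (v := v)
  have h0 : 1 - (v : E3) 2 ≠ 0 := sub_ne_zero.2 h.symm
  have hle : (v : E3) 2 ≤ 1 := by
    nlinarith [sq_nonneg ((v : E3) 0), sq_nonneg ((v : E3) 1), sq_nonneg ((v : E3) 2 - 1)]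
  have h2 : 1 + (pr v).re ^ 2 + (pr v).im ^ 2 = 2 / (1 - (v : E3) 2) := by
    simp only [pr]
    field_simp
    linear_combination h1
  apply Subtype.ext
  ext i
  rw [sig_coe, h2]
  fin_cases i
  · simp [vec, pr]
    field_simp
  · simp [vec, pr]
    field_simp
  · have h3 : (pr v).re ^ 2 + (pr v).im ^ 2 - 1 = 2 / (1 - (v : E3) 2) - 2 := by
      rw [← h2]; ring
    simp [vec]
    rw [h3]
    field_simp
    ring

theorem continuousAt_pr {v : Sph E3} (hv : v ≠ north) : ContinuousAt pr v := by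
  have h0 : 1 - (v : E3) 2 ≠ 0 := sub_ne_zero.2 (ne_north.1 hv).symm
  have h1 : ContinuousAt (fun v : Sph E3 =>
      (((v : E3) 0 / (1 - (v : E3) 2) : ℝ) : ℂ) + (((v : E3) 1 / (1 - (v : E3) 2) : ℝ) : ℂ) *
        Complex.I) v := by
    have hc : ∀ i : Fin 3, ContinuousAt (fun v : Sph E3 => (v : E3) i) v := by
      intro i
      fun_prop
    have h2 := (hc 0).div (continuousAt_const.sub (hc 2)) h0
    have h3 := (hc 1).div (continuousAt_const.sub (hc 2)) h0
    exact (Complex.continuous_ofReal.continuousAt.comp h2).add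
      ((Complex.continuous_ofReal.continuousAt.comp h3).mul continuousAt_const)
  exact h1.congr (Eventually.of_forall fun w => (Complex.mk_eq_add_mul_I _ _).symm)

theorem tendsto_sig : Tendsto sig (cobounded ℂ) (𝓝 north) := by
  have : CompactSpace (Sph E3) := isCompact_iff_compactSpace.1 (isCompact_sphere (0 : E3) 1)
  intro O hO
  obtain ⟨O', hO', hoO, hn⟩ := mem_nhds_iff.1 hO
  have h1 : IsCompact (pr '' O'ᶜ) := by
    refine hoO.isClosed_compl.isCompact.image_of_continuousOn fun v hv => ?_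
    exact (continuousAt_pr (fun h : v = north => hv (by rw [h]; exact hn))).continuousWithinAt
  have h2 := isBounded_def.1 h1.isBounded
  rw [Filter.mem_map]
  filter_upwards [h2] with z hz
  apply hO'
  by_contra hcon
  exact hz ⟨sig z, hcon, pr_sig z⟩

theorem tendsto_pr : Tendsto pr (𝓝[≠] north) (cobounded ℂ) := by
  rw [← tendsto_norm_atTop_iff_cobounded, tendsto_atTop]
  intro R
  have h1 : IsCompact (sig '' Metric.closedBall 0 R) :=
    (isCompact_closedBall 0 R).image continuous_sig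
  have h2 : (sig '' Metric.closedBall 0 R)ᶜ ∈ 𝓝 north := by
    refine h1.isClosed.isOpen_compl.mem_nhds ?_
    rintro ⟨z, -, hz⟩
    exact sig_ne z hz
  filter_upwards [mem_nhdsWithin_of_mem_nhds h2, self_mem_nhdsWithin] with v hv hv2
  by_contra hcon
  exact hv ⟨pr v, by simpa using (not_le.1 hcon).le, sig_pr hv2⟩

/-- The light-like vector over `z`. -/
noncomputable def Nv (z : ℂ) : ℝ × E3 := (1 + z.re ^ 2 + z.im ^ 2, vec z)

theorem Nv_eq (z : ℂ) : Nv z = (1 + z.re ^ 2 + z.im ^ 2) • ((1 : ℝ), (sig z : E3)) := by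
  have h1 : (0 : ℝ) < 1 + z.re ^ 2 + z.im ^ 2 := by positivity
  unfold Nv sig
  simp only [Prod.smul_mk, smul_eq_mul, mul_one, smul_smul]
  rw [mul_inv_cancel₀ h1.ne', one_smul]

theorem mo_of_Nv {T : IG E3} {z z' : ℂ} {c : ℝ}
    (h : (T : (ℝ × E3) ≃L[ℝ] (ℝ × E3)) (Nv z) = c • Nv z') : mo T (sig z) = sig z' := by
  have h1 : (0 : ℝ) < 1 + z.re ^ 2 + z.im ^ 2 := by positivity
  symm
  refine (mo_unique (T := T) (x := sig z)
    (c := (1 + z.re ^ 2 + z.im ^ 2)⁻¹ * (c * (1 + z'.re ^ 2 + z'.im ^ 2))) ?_).2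
  rw [Nv_eq, Nv_eq, map_smul, smul_smul] at h
  rw [mul_smul, ← h, smul_smul, inv_mul_cancel₀ h1.ne', one_smul]

theorem qf3 (t : ℝ) (e : E3) : qf (t, e) = t ^ 2 - (e 0 ^ 2 + e 1 ^ 2 + e 2 ^ 2) := by
  unfold qf
  simp only
  rw [EuclideanSpace.real_norm_sq_eq, Fin.sum_univ_three]

/-- The linear map of a similarity of the plane. -/
noncomputable def affL (a b : ℂ) (k : ℝ) : (ℝ × E3) →ₗ[ℝ] (ℝ × E3) where
  toFun v :=
    let t := v.1
    let x := v.2 0
    let y := v.2 1
    let w := v.2 2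
    let X := (a.re * x - a.im * y + b.re * (t - w)) / k
    let Y := (a.im * x + a.re * y + b.im * (t - w)) / k
    let S := (t - w) / k
    let R := (k ^ 2 * (t + w) + 2 * ((a.re * x - a.im * y) * b.re + (a.im * x + a.re * y) * b.im) +
      (b.re ^ 2 + b.im ^ 2) * (t - w)) / k
    ((S + R) / 2, !₂[X, Y, (R - S) / 2])
  map_add' u v := by
    refine Prod.ext ?_ ?_
    · simp
      ring
    · ext i
      fin_cases i <;> simp <;> ring
  map_smul' c v := by
    refine Prod.ext ?_ ?_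
    · simp
      ring
    · ext i
      fin_cases i <;> simp <;> ring

theorem exists_aff (a b : ℂ) (ha : a ≠ 0) : ∃ T : IG E3, ∀ z, mo T (sig z) = sig (a * z + b) := by
  set k := ‖a‖ with hk
  have hk0 : 0 < k := norm_pos_iff.2 ha
  have hk2 : k ^ 2 = a.re ^ 2 + a.im ^ 2 := by
    rw [hk, Complex.sq_norm, Complex.normSq_apply]
    ring
  obtain ⟨T, hT⟩ := mkT (affL a b k) (fun v => by
    obtain ⟨t, e⟩ := v
    rw [qf3]
    simp only [affL, LinearMap.coe_mk, AddHom.coe_mk]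
    rw [qf3]
    simp
    field_simp
    rw [hk2]
    ring) (by
    simp only [affL, LinearMap.coe_mk, AddHom.coe_mk]
    simp
    positivity)
  refine ⟨T, fun z => mo_of_Nv (c := k⁻¹) ?_⟩
  rw [hT]
  refine Prod.ext ?_ ?_
  · simp [affL, Nv, vec]
    field_simp
    rw [hk2]
    ring
  · ext i
    fin_cases i
    · simp [affL, Nv, vec]
      field_simp
      ring
    · simp [affL, Nv, vec]
      field_simp
      ring
    · simp [affL, Nv, vec]
      field_simp
      rw [hk2]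
      ring

/-- The linear map of the inversion. -/
noncomputable def invL : (ℝ × E3) →ₗ[ℝ] (ℝ × E3) where
  toFun v := (v.1, !₂[v.2 0, -v.2 1, -v.2 2])
  map_add' u v := by
    refine Prod.ext ?_ ?_
    · simp
    · ext i
      fin_cases i <;> simp <;> ring
  map_smul' c v := by
    refine Prod.ext ?_ ?_
    · simp
    · ext i
      fin_cases i <;> simp

theorem exists_inv : ∃ T : IG E3, ∀ z, z ≠ 0 → mo T (sig z) = sig z⁻¹ := by
  obtain ⟨T, hT⟩ := mkT invL (fun v => by
    obtain ⟨t, e⟩ := v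
    rw [qf3]
    simp only [invL, LinearMap.coe_mk, AddHom.coe_mk]
    rw [qf3]
    simp) (by simp [invL])
  refine ⟨T, fun z hz => mo_of_Nv (c := z.re ^ 2 + z.im ^ 2) ?_⟩
  have h2 : Complex.normSq z = z.re ^ 2 + z.im ^ 2 := by
    rw [Complex.normSq_apply]; ring
  have h3 : z.re ^ 2 + z.im ^ 2 ≠ 0 := by
    rw [← h2]
    exact Complex.normSq_eq_zero.not.2 hz
  rw [hT]
  refine Prod.ext ?_ ?_
  · simp [invL, Nv, vec, h2]
    field_simp
    ring
  · ext i
    fin_cases i
    · simp [invL, Nv, vec, h2]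
      field_simp
    · simp [invL, Nv, vec, h2]
      field_simp
    · simp [invL, Nv, vec, h2]
      field_simp

theorem exists_moebius (a b c : ℂ) (ha : a ≠ 0) :
    ∃ T : IG E3, ∀ z, a * z + b ≠ 0 → mo T (sig z) = sig (c + (a * z + b)⁻¹) := by
  obtain ⟨T₁, h₁⟩ := exists_aff a b ha
  obtain ⟨T₂, h₂⟩ := exists_inv
  obtain ⟨T₃, h₃⟩ := exists_aff 1 c one_ne_zero
  refine ⟨T₃ * (T₂ * T₁), fun z hz => ?_⟩
  rw [mo_mul, mo_mul, h₁, h₂ _ hz, h₃]
  congr 1
  ring

end Pool.Agent.TH311.LC
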