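import Pool.Agent.TH311.LM.L6

/-!
# The abstract finite test, and holomorphic coordinate changes
-/

set_option autoImplicit false

open Filter Topology Set
open Pool.Agent.TH289.C Pool.Agent.TH311.LM

namespace Pool.Agent.TH311.LC

variable {G : Type} [Group G] {X : Type} [MetricSpace X] [CompactSpace X]

/-- The abstract finite test. -/
theorem finite_abs (hp : Perf X) {α : G →* (X ≃ₜ X)} (hα : IsConvergenceAction α)
    (hco : CocompactOnTriples α) (hfg : Group.FG G) {U : Set X} (hU : IsOpen U)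
    (hne : U.Nonempty) :
    ∃ F : Finset G, ∀ (ι : Type) (W : ι → Set X) (R : G → ι → ι → X → Prop), (⋃ a, W a) = U →
      (∀ g g' a b c x, R g a b x → R g' b c (α g x) → R (g' * g) a c x) →
      (∀ g ∈ F, ∀ a b, ∀ x ∈ W a, α g x ∈ W b → R g a b x) →
      ∀ g a b, ∀ x ∈ W a, α g x ∈ W b → R g a b x := by
  classical
  obtain ⟨I, hI⟩ := isCompact_univ.elim_finite_subcover (fun g : G => {x | α g x ∈ U})
    (fun g => hU.preimage (α g).continuous) (fun x _ => by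
      obtain ⟨g, hg⟩ := minimal hp hα hco hU hne x
      exact mem_iUnion.2 ⟨g, hg⟩)
  obtain ⟨S, hS⟩ := hfg.out
  set I' : Finset G := insert 1 I with hI'
  set S' : Finset G := insert 1 (S ∪ S.image (fun s => s⁻¹)) with hS'
  refine ⟨(I' ×ˢ S' ×ˢ I').image (fun t => t.1 * t.2.1 * t.2.2⁻¹), fun ι W R hW hR hφ => ?_⟩
  have hF : ∀ i ∈ I', ∀ s ∈ S', ∀ l ∈ I', ∀ a b, ∀ x ∈ W a, α (i * s * l⁻¹) x ∈ W b →
      R (i * s * l⁻¹) a b x := by
    intro i hi s hs l hl
    refine hφ _ (Finset.mem_image.2 ⟨(i, s, l), ?_, rfl⟩)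
    simp only [Finset.mem_product]
    exact ⟨hi, hs, hl⟩
  have h1S : (1 : G) ∈ S' := Finset.mem_insert_self _ _
  have h1I : (1 : G) ∈ I' := Finset.mem_insert_self _ _
  have step : ∀ s ∈ S', ∀ g : G,
      (∀ i ∈ I', ∀ a b, ∀ x ∈ W a, α (i * g) x ∈ W b → R (i * g) a b x) →
      ∀ i ∈ I', ∀ a b, ∀ x ∈ W a, α (i * (s * g)) x ∈ W b → R (i * (s * g)) a b x := by
    intro s hs g hg i hi a b x hx hx'
    obtain ⟨l, hl, hlx⟩ : ∃ l ∈ I', α l (α g x) ∈ U := by
      obtain ⟨l, hl⟩ := mem_iUnion.1 (hI (mem_univ (α g x)))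
      obtain ⟨hl1, hl2⟩ := mem_iUnion.1 hl
      exact ⟨l, Finset.mem_insert_of_mem hl1, hl2⟩
    rw [← amul, ← hW] at hlx
    obtain ⟨c, hlx⟩ := mem_iUnion.1 hlx
    have h1 := hg l hl a c x hx hlx
    have e : i * (s * g) = i * s * l⁻¹ * (l * g) := by group
    rw [e, amul] at hx'
    have h2 := hF i hi s hs l hl c b _ hlx hx'
    rw [e]
    exact hR _ _ _ _ _ _ h1 h2
  have base : ∀ i ∈ I', ∀ a b, ∀ x ∈ W a, α (i * 1) x ∈ W b → R (i * 1) a b x := by
    intro i hi a b x hx hx'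
    have h := hF i hi 1 h1S 1 h1I
    rw [inv_one, mul_one] at h
    exact h a b x hx hx'
  have all : ∀ g : G, ∀ i ∈ I', ∀ a b, ∀ x ∈ W a, α (i * g) x ∈ W b → R (i * g) a b x := by
    intro g
    have hg : g ∈ Subgroup.closure (S : Set G) := by rw [hS]; trivial
    induction hg using Subgroup.closure_induction_left with
    | one => exact base
    | mul_left s hs g _ ih =>
      exact step s (Finset.mem_insert_of_mem (Finset.mem_union_left _ hs)) g ih
    | inv_mul_cancel s hs g _ ih =>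
      exact step s⁻¹ (Finset.mem_insert_of_mem (Finset.mem_union_right _
        (Finset.mem_image.2 ⟨s, hs, rfl⟩))) g ih
  intro g a b x hx hx'
  have := all g 1 h1I a b x hx
  rw [one_mul] at this
  exact this hx'

/-- `g` is holomorphic near `x`, in the coordinates `φ` near `x` and `ψ` near `g x`. -/
def HolAt (α : G →* (X ≃ₜ X)) (g : G) (φ ψ : X → ℂ) (x : X) : Prop :=
  ∃ H : ℂ → ℂ, AnalyticAt ℂ H (φ x) ∧ ∀ᶠ y in 𝓝 x, ψ (α g y) = H (φ y)

theorem HolAt.comp {α : G →* (X ≃ₜ X)} {g g' : G} {φ ψ χ : X → ℂ} {x : X}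
    (h : HolAt α g φ ψ x) (h' : HolAt α g' ψ χ (α g x)) : HolAt α (g' * g) φ χ x := by
  obtain ⟨H, hH, h1⟩ := h
  obtain ⟨H', hH', h2⟩ := h'
  have hx := h1.self_of_nhds
  rw [hx] at hH'
  refine ⟨H' ∘ H, hH'.comp hH, ?_⟩
  have hc : Tendsto (α g) (𝓝 x) (𝓝 (α g x)) := (α g).continuous.tendsto x
  filter_upwards [h1, hc.eventually h2] with y hy1 hy2
  rw [amul, hy2, hy1]
  rfl

/-- A complex coordinate on the open set `W`. -/
structure IsCoord (φ : X → ℂ) (W : Set X) : Prop where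
  cont : ContinuousOn φ W
  inj : InjOn φ W
  isOpen_image : ∀ O ⊆ W, IsOpen O → IsOpen (φ '' O)

theorem IsCoord.map_nhds {φ : X → ℂ} {W : Set X} (h : IsCoord φ W) (hW : IsOpen W) {x : X}
    (hx : x ∈ W) : Filter.map φ (𝓝 x) = 𝓝 (φ x) := by
  apply le_antisymm
  · exact h.cont.continuousAt (hW.mem_nhds hx)
  · intro O hO
    rw [Filter.mem_map] at hO
    obtain ⟨O', hO', ho, hxO⟩ := mem_nhds_iff.1 (inter_mem hO (hW.mem_nhds hx))
    have h1 := (h.isOpen_image O' (fun y hy => (hO' hy).2) ho).mem_nhds (mem_image_of_mem φ hxO)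
    refine mem_of_superset h1 ?_
    rintro _ ⟨y, hy, rfl⟩
    exact (hO' hy).1

theorem Lox.pow_succ {α : G →* (X ≃ₜ X)} {h : G} {V : Set X} {p q : X} (L : Lox α h V p q)
    (hpm : ∀ k : ℕ, ∀ x ∈ V, α (h ^ k) x ∈ V) (m : ℕ) : Lox α (h ^ (m + 1)) V p q where
  isOpen := L.isOpen
  p_mem := L.p_mem
  q_notMem := L.q_notMem
  fix_p := by
    have : ∀ k : ℕ, α (h ^ k) p = p := by
      intro k
      induction k with
      | zero => rw [pow_zero, aone]
      | succ k ih => rw [_root_.pow_succ, amul, L.fix_p, ih]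
    exact this _
  fix_q := by
    have : ∀ k : ℕ, α (h ^ k) q = q := by
      intro k
      induction k with
      | zero => rw [pow_zero, aone]
      | succ k ih => rw [_root_.pow_succ, amul, L.fix_q, ih]
    exact this _
  maps := hpm _
  ent := by
    intro x hx
    obtain ⟨k, hk⟩ := L.ent x hx
    refine ⟨k, ?_⟩
    have e : (h ^ (m + 1)) ^ k = h ^ (m * k) * h ^ k := by
      rw [← pow_mul, ← pow_add]
      congr 1
      ring
    rw [e, amul]
    exact hpm _ _ hk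
  contr := by
    intro N hN
    obtain ⟨m₀, hm₀⟩ := L.contr N hN
    refine ⟨m₀, fun k hk x hx => ?_⟩
    rw [← pow_mul]
    exact hm₀ _ (hk.trans (Nat.le_mul_of_pos_left k (Nat.succ_pos m))) x hx

theorem Lox.shrink {α : G →* (X ≃ₜ X)} {h : G} {V : Set X} {p q : X} (L : Lox α h V p q)
    (hpm : ∀ k : ℕ, ∀ x ∈ V, α (h ^ k) x ∈ V) {N : Set X} (hN : N ∈ 𝓝 p) :
    ∃ V₁ ⊆ N, Lox α h V₁ p q := by
  obtain ⟨m, hm⟩ := L.contr N hN
  have hfix : ∀ (x : X), α h x = x → ∀ k : ℕ, α (h ^ k) x = x := by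
    intro x hx k
    induction k with
    | zero => rw [pow_zero, aone]
    | succ k ih => rw [_root_.pow_succ, amul, hx, ih]
  refine ⟨α (h ^ m) '' V, ?_, ?_⟩
  · rintro _ ⟨x, hx, rfl⟩
    exact hm m le_rfl x hx
  · refine ⟨(α (h ^ m)).isOpenMap V L.isOpen, ⟨p, L.p_mem, hfix p L.fix_p m⟩, ?_, L.fix_p, L.fix_q,
      ?_, ?_, ?_⟩
    · rintro ⟨x, hx, hxq⟩
      have h1 : x = q := (α (h ^ m)).injective (hxq.trans (hfix q L.fix_q m).symm)
      exact L.q_notMem (h1 ▸ hx)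
    · rintro _ ⟨x, hx, rfl⟩
      refine ⟨α h x, L.maps x hx, ?_⟩
      rw [← amul, ← amul, ← _root_.pow_succ, ← pow_succ']
    · intro x hx
      obtain ⟨k, hk⟩ := L.ent x hx
      exact ⟨m + k, α (h ^ k) x, hk, by rw [← amul, ← pow_add]⟩
    · intro N' hN'
      obtain ⟨m', hm'⟩ := L.contr N' hN'
      refine ⟨m', ?_⟩
      rintro k hk _ ⟨x, hx, rfl⟩
      rw [← amul, ← pow_add]
      exact hm' _ (by omega) x hx

end Pool.Agent.TH311.LC
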