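import Pool.Agent.TH311.LC.R2
import Pool.Agent.TH311.LC.R4

/-!
# A coordinate in which a contracting element is linear
-/

set_option autoImplicit false

open Filter Topology Set
open Pool.Agent.TH289.C Pool.Agent.TH311.LM
open scoped ContDiff

namespace Pool.Agent.TH311.LC

variable {G : Type} [Group G] {X : Type} [MetricSpace X] [CompactSpace X]

theorem exists_linear₀ {α : G →* (X ≃ₜ X)} {φ : X → ℂ} {W : Set X} (hW : IsOpen W)
    (hφ : IsCoord φ W) {h : G} {V : Set X} {p q : X} (hVW : V ⊆ W) (L : Lox α h V p q)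
    (hp0 : φ p = 0) (hall : ∀ g, ∀ x ∈ W, α g x ∈ W → HolAt α g φ φ x) :
    ∃ (h₁ : G) (V₁ U₁ : Set X) (ψ ψi : ℂ → ℂ) (l : ℂ), l ≠ 0 ∧ IsOpen U₁ ∧ U₁ ⊆ W ∧ V₁ ⊆ U₁ ∧
      Lox α h₁ V₁ p q ∧
      (∀ x ∈ U₁, AnalyticAt ℂ ψ (φ x) ∧ AnalyticAt ℂ ψi (ψ (φ x)) ∧ ψi (ψ (φ x)) = φ x ∧
        Filter.map ψ (𝓝 (φ x)) = 𝓝 (ψ (φ x))) ∧
      ∀ᶠ y in 𝓝 p, ψ (φ (α h₁ y)) = l * ψ (φ y) := by
  have hp : p ∈ W := hVW L.p_mem
  have hVo := hφ.isOpen_image V hVW L.isOpen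
  obtain ⟨R, hR, hRV⟩ := Metric.isOpen_iff.1 hVo 0 ⟨p, L.p_mem, hp0⟩
  have hcp : ContinuousAt φ p := hφ.cont.continuousAt (hW.mem_nhds hp)
  have hN' : {x | x ∈ V ∧ φ x ∈ Metric.ball 0 (R / 2)} ∈ 𝓝 p := by
    have h1 : φ ⁻¹' Metric.ball 0 (R / 2) ∈ 𝓝 p := by
      apply hcp
      rw [hp0]
      exact Metric.ball_mem_nhds 0 (by positivity)
    exact inter_mem (L.isOpen.mem_nhds L.p_mem) h1
  obtain ⟨m, hm⟩ := L.contr _ hN'
  set h₁ := h ^ (m + 1) with hh₁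
  have L₁ : Lox α h₁ V p q := Lox.pow_succ L L.pow_maps m
  have hV₁ : ∀ x ∈ V, α h₁ x ∈ V ∧ φ (α h₁ x) ∈ Metric.ball 0 (R / 2) :=
    fun x hx => hm (m + 1) (by omega) x hx
  have hfixi : α h₁⁻¹ p = p := by
    have := ainv α h₁ p
    rwa [L₁.fix_p] at this
  obtain ⟨H, hH, hHe⟩ := hall h₁ p hp (by rw [L₁.fix_p]; exact hp)
  obtain ⟨K, hK, hKe⟩ := hall h₁⁻¹ p hp (by rw [hfixi]; exact hp)
  rw [hp0] at hH hK
  have hH0 : H 0 = 0 := by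
    have := hHe.self_of_nhds
    rw [L₁.fix_p, hp0] at this
    exact this.symm
  have hmap := hφ.map_nhds hW hp
  rw [hp0] at hmap
  have hKH : ∀ᶠ z in 𝓝 (0 : ℂ), K (H z) = z := by
    rw [← hmap, eventually_map]
    have hc : Tendsto (α h₁) (𝓝 p) (𝓝 p) := by
      have := (α h₁).continuous.tendsto p
      rwa [L₁.fix_p] at this
    filter_upwards [hHe, hc.eventually hKe] with y h1 h2
    rw [← h1, ← h2, ainv]
  have hd : deriv H 0 ≠ 0 := by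
    intro h0
    have h1 : HasDerivAt (K ∘ H) (deriv K (H 0) * deriv H 0) 0 := by
      refine HasDerivAt.comp 0 ?_ hH.differentiableAt.hasDerivAt
      rw [hH0]
      exact hK.differentiableAt.hasDerivAt
    have h2 : HasDerivAt (K ∘ H) 1 0 := (hasDerivAt_id (0 : ℂ)).congr_of_eventuallyEq hKH
    have := h1.unique h2
    rw [h0, mul_zero] at this
    exact zero_ne_one this
  have : Nonempty X := ⟨p⟩
  have hinv : LeftInvOn (Function.invFunOn φ V) φ V := (hφ.inj.mono hVW).leftInvOn_invFunOn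
  set Ĥ : ℂ → ℂ := fun z => φ (α h₁ (Function.invFunOn φ V z)) with hĤ
  have hĤφ : ∀ x ∈ V, Ĥ (φ x) = φ (α h₁ x) := by
    intro x hx
    simp only [hĤ]
    rw [hinv hx]
  have hloc : ∀ x ∈ V, ∀ Hx : ℂ → ℂ, (∀ᶠ y in 𝓝 x, φ (α h₁ y) = Hx (φ y)) →
      Ĥ =ᶠ[𝓝 (φ x)] Hx := by
    intro x hx Hx hHx
    change ∀ᶠ z in 𝓝 (φ x), Ĥ z = Hx z
    rw [← hφ.map_nhds hW (hVW hx), eventually_map]
    filter_upwards [hHx, L.isOpen.mem_nhds hx] with y h1 h2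
    rw [hĤφ y h2, h1]
  have hĤd : DifferentiableOn ℂ Ĥ (Metric.ball 0 R) := by
    intro z hz
    obtain ⟨x, hx, rfl⟩ := hRV hz
    obtain ⟨Hx, hHx, hex⟩ := hall h₁ x (hVW hx) (hVW (hV₁ x hx).1)
    exact (hHx.differentiableAt.congr_of_eventuallyEq (hloc x hx Hx hex)).differentiableWithinAt
  have hĤ0 : Ĥ 0 = 0 := by
    have := hĤφ p L.p_mem
    rwa [L₁.fix_p, hp0] at this
  have hlt : ‖deriv H 0‖ < 1 := by
    have h1 : ‖deriv Ĥ 0‖ ≤ (R / 2) / R := by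
      refine Complex.norm_deriv_le_div_of_mapsTo_ball hĤd ?_ hR
      intro z hz
      obtain ⟨x, hx, rfl⟩ := hRV hz
      rw [hĤ0, hĤφ x hx]
      exact Metric.ball_subset_closedBall (hV₁ x hx).2
    have h2 : deriv Ĥ 0 = deriv H 0 := by
      have := hloc p L.p_mem H hHe
      rw [hp0] at this
      exact this.deriv_eq
    rw [h2] at h1
    have h3 : (R / 2) / R = 1 / 2 := by field_simp
    rw [h3] at h1
    linarith
  obtain ⟨ψ, hψa, hψ0, hψd, hψe⟩ := koenigs hH hH0 hd hlt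
  have hcd : ContDiffAt ℂ ω ψ 0 := hψa.contDiffAt
  have hf' : HasFDerivAt ψ ((ContinuousLinearEquiv.refl ℂ ℂ : ℂ ≃L[ℂ] ℂ) : ℂ →L[ℂ] ℂ) 0 := by
    have h1 := hψa.differentiableAt.hasDerivAt
    rw [hψd] at h1
    have h2 := h1.hasFDerivAt
    convert! h2 using 1
    ext
    simp
  have hn : (ω : WithTop ℕ∞) ≠ 0 := by simp
  set ψi := hcd.localInverse hf' hn with hψi
  have hψia : AnalyticAt ℂ ψi (ψ 0) := (hcd.to_localInverse hf' hn).analyticAt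
  have hleft : ∀ᶠ z in 𝓝 (0 : ℂ), ψi (ψ z) = z :=
    (hcd.hasStrictFDerivAt' hf' hn).eventually_left_inverse
  have hgood : ∀ᶠ z in 𝓝 (0 : ℂ), AnalyticAt ℂ ψ z ∧ AnalyticAt ℂ ψi (ψ z) ∧ ψi (ψ z) = z ∧
      Filter.map ψ (𝓝 z) = 𝓝 (ψ z) := by
    have h1 := hψa.eventually_analyticAt
    have h2 := hψa.continuousAt.eventually hψia.eventually_analyticAt
    have h3 : ∀ᶠ z in 𝓝 (0 : ℂ), deriv ψ z ≠ 0 :=
      hψa.deriv.continuousAt.eventually_ne (by rw [hψd]; exact one_ne_zero)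
    filter_upwards [h1, h2, hleft, h3] with z e1 e2 e3 e4
    exact ⟨e1, e2, e3, e1.hasStrictDerivAt.map_nhds_eq e4⟩
  obtain ⟨D, hD, hDo, h0D⟩ := eventually_nhds_iff.1 hgood
  set U₁ := V ∩ φ ⁻¹' D with hU₁
  have hU₁o : IsOpen U₁ := (hφ.cont.mono hVW).isOpen_inter_preimage L.isOpen hDo
  have hpU : p ∈ U₁ := ⟨L.p_mem, by change φ p ∈ D; rw [hp0]; exact h0D⟩
  obtain ⟨V₁, hV₁U, L₂⟩ := Lox.shrink L₁ L₁.pow_maps (hU₁o.mem_nhds hpU)
  refine ⟨h₁, V₁, U₁, ψ, ψi, deriv H 0, hd, hU₁o, fun x hx => hVW hx.1, hV₁U, L₂,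
    fun x hx => hD _ hx.2, ?_⟩
  have h5 : ∀ᶠ y in 𝓝 p, ψ (H (φ y)) = deriv H 0 * ψ (φ y) := by
    have : Tendsto φ (𝓝 p) (𝓝 0) := hmap.le
    exact this.eventually hψe
  filter_upwards [hHe, h5] with y h1 h2
  rw [h1, h2]

theorem exists_linear {α : G →* (X ≃ₜ X)} {φ : X → ℂ} {W : Set X} (hW : IsOpen W)
    (hφ : IsCoord φ W) {h : G} {V : Set X} {p q : X} (hVW : V ⊆ W) (L : Lox α h V p q)
    (hall : ∀ g, ∀ x ∈ W, α g x ∈ W → HolAt α g φ φ x) :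
    ∃ (h₁ : G) (V₁ U₁ : Set X) (ψ ψi : ℂ → ℂ) (l : ℂ), l ≠ 0 ∧ IsOpen U₁ ∧ U₁ ⊆ W ∧ V₁ ⊆ U₁ ∧
      Lox α h₁ V₁ p q ∧
      (∀ x ∈ U₁, AnalyticAt ℂ ψ (φ x) ∧ AnalyticAt ℂ ψi (ψ (φ x)) ∧ ψi (ψ (φ x)) = φ x ∧
        Filter.map ψ (𝓝 (φ x)) = 𝓝 (ψ (φ x))) ∧
      ∀ᶠ y in 𝓝 p, ψ (φ (α h₁ y)) = l * ψ (φ y) := by
  set c := φ p with hc
  set φ' : X → ℂ := fun y => φ y - c with hφ'
  have hφ'c : IsCoord φ' W := by
    refine ⟨hφ.cont.sub continuousOn_const, fun x hx y hy hxy => ?_, fun O hO hOo => ?_⟩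
    · apply hφ.inj hx hy
      simp only [hφ'] at hxy
      exact sub_left_injective hxy
    · have h1 := hφ.isOpen_image O hO hOo
      have h2 : φ' '' O = (fun z => z + c) ⁻¹' (φ '' O) := by
        ext z
        constructor
        · rintro ⟨y, hy, rfl⟩
          exact ⟨y, hy, by simp [hφ']⟩
        · rintro ⟨y, hy, hyz⟩
          exact ⟨y, hy, by simp only [hφ']; rw [hyz]; ring⟩
      rw [h2]
      exact h1.preimage (by fun_prop)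
  have hall' : ∀ g, ∀ x ∈ W, α g x ∈ W → HolAt α g φ' φ' x := by
    intro g x hx hgx
    obtain ⟨H, hH, he⟩ := hall g x hx hgx
    refine ⟨fun z => H (z + c) - c, ?_, ?_⟩
    · refine AnalyticAt.sub ?_ analyticAt_const
      have h1 : AnalyticAt ℂ (fun z : ℂ => z + c) (φ' x) := analyticAt_id.add analyticAt_const
      have h2 : AnalyticAt ℂ H ((fun z : ℂ => z + c) (φ' x)) := by
        simpa [hφ'] using hH
      exact AnalyticAt.comp (g := H) (f := fun z : ℂ => z + c) (x := φ' x) h2 h1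
    · filter_upwards [he] with y hy
      simp only [hφ']
      rw [hy, sub_add_cancel]
  obtain ⟨h₁, V₁, U₁, ψ, ψi, l, e1, e2, e3, e4, e5, e6, e7⟩ :=
    exists_linear₀ hW hφ'c hVW L (by simp [hφ', hc]) hall'
  refine ⟨h₁, V₁, U₁, fun z => ψ (z - c), fun w => ψi w + c, l, e1, e2, e3, e4, e5, ?_, e7⟩
  intro x hx
  obtain ⟨f1, f2, f3, f4⟩ := e6 x hx
  have hsub : AnalyticAt ℂ (fun z : ℂ => z - c) (φ x) := analyticAt_id.sub analyticAt_const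
  refine ⟨?_, f2.add analyticAt_const, ?_, ?_⟩
  · have f1' : AnalyticAt ℂ ψ ((fun z : ℂ => z - c) (φ x)) := f1
    exact AnalyticAt.comp (g := ψ) (f := fun z : ℂ => z - c) (x := φ x) f1' hsub
  · change ψi (ψ (φ' x)) + c = φ x
    rw [f3]
    simp [hφ']
  · change Filter.map (ψ ∘ fun z => z - c) (𝓝 (φ x)) = 𝓝 (ψ (φ' x))
    rw [← Filter.map_map, ← f4]
    congr 1
    exact (Homeomorph.subRight c).map_nhds_eq (φ x)

end Pool.Agent.TH311.LC
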