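import Pool.Agent.TH311.LC.R1
import Pool.Agent.TH311.LC.R3
import Pool.Agent.TH311.LC.R5
import Pool.Agent.TH311.LM.L7

/-!
# An invariant complex structure gives an invariant Moebius structure
-/

set_option autoImplicit false

open Filter Topology Set Bornology
open Pool.Agent.TH289.C Pool.Agent.TH311.LM

namespace Pool.Agent.TH311.LC

theorem map_sig (z : ℂ) : Filter.map sig (𝓝 z) = 𝓝 (sig z) := by
  apply le_antisymm
  · exact continuous_sig.continuousAt
  · intro O hO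
    rw [Filter.mem_map] at hO
    have h1 : pr ⁻¹' (sig ⁻¹' O) ∈ 𝓝 (sig z) := by
      apply continuousAt_pr (sig_ne z)
      rw [pr_sig]
      exact hO
    filter_upwards [h1, isOpen_ne.mem_nhds (sig_ne z)] with v hv hv2
    have h2 : sig (pr v) ∈ O := hv
    rwa [sig_pr hv2] at h2

variable {G : Type} [Group G]

/-- Global coordinate. -/
structure GCoord (q : Sph E3) (f : Sph E3 ≃ₜ Sph E3) : Prop where
  fq : f q = north

theorem GCoord.ne {q : Sph E3} {f : Sph E3 ≃ₜ Sph E3} (hf : GCoord q f) {x : Sph E3}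
    (hx : x ≠ q) : f x ≠ north := by
  intro h
  apply hx
  apply f.injective
  rw [h, hf.fq]

theorem GCoord.sig_f {q : Sph E3} {f : Sph E3 ≃ₜ Sph E3} (hf : GCoord q f) {x : Sph E3}
    (hx : x ≠ q) : sig (pr (f x)) = f x := sig_pr (hf.ne hx)

theorem GCoord.symm_ne {q : Sph E3} {f : Sph E3 ≃ₜ Sph E3} (hf : GCoord q f) (w : ℂ) :
    f.symm (sig w) ≠ q := by
  intro h
  have := congrArg f h
  rw [f.apply_symm_apply, hf.fq] at this
  exact sig_ne w this

theorem GCoord.inj {q : Sph E3} {f : Sph E3 ≃ₜ Sph E3} (hf : GCoord q f) {x y : Sph E3}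
    (hx : x ≠ q) (hy : y ≠ q) (h : pr (f x) = pr (f y)) : x = y := by
  apply f.injective
  rw [← hf.sig_f hx, ← hf.sig_f hy, h]

theorem GCoord.tendsto_symm {q : Sph E3} {f : Sph E3 ≃ₜ Sph E3} (hf : GCoord q f) :
    Tendsto (fun w => f.symm (sig w)) (cobounded ℂ) (𝓝 q) := by
  have h1 := (f.symm.continuous.tendsto north).comp tendsto_sig
  have h2 : f.symm north = q := by rw [← hf.fq, f.symm_apply_apply]
  rwa [h2] at h1

theorem GCoord.tendsto_pr {q : Sph E3} {f : Sph E3 ≃ₜ Sph E3} (hf : GCoord q f) :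
    Tendsto (fun x => pr (f x)) (𝓝[≠] q) (cobounded ℂ) := by
  refine LC.tendsto_pr.comp ?_
  rw [tendsto_nhdsWithin_iff]
  refine ⟨?_, ?_⟩
  · have := f.continuous.tendsto q
    rw [hf.fq] at this
    exact this.mono_left nhdsWithin_le_nhds
  · filter_upwards [self_mem_nhdsWithin] with x hx
    exact hf.ne hx

/-- A homeomorphism of the sphere that is holomorphic, off the pole, is a Moebius map. -/
theorem moebius_of_hol {α : G →* (Sph E3 ≃ₜ Sph E3)} {q : Sph E3} {f : Sph E3 ≃ₜ Sph E3}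
    (hf : GCoord q f) {g : G}
    (hol : ∀ x, x ≠ q → α g x ≠ q → HolAt α g (fun y => pr (f y)) (fun y => pr (f y)) x) :
    ∃ T : IG E3, ∀ x, x ≠ q → α g x ≠ q → f (α g x) = mo T (f x) := by
  set F : ℂ → ℂ := fun w => pr (f (α g (f.symm (sig w)))) with hF
  have hxs : Continuous fun w => f.symm (sig w) := f.symm.continuous.comp continuous_sig
  have hFd : ∀ w, α g (f.symm (sig w)) ≠ q → DifferentiableAt ℂ F w := by
    intro w hw
    obtain ⟨H, hH, he⟩ := hol _ (hf.symm_ne w) hw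
    simp only [f.apply_symm_apply, pr_sig] at hH
    refine hH.differentiableAt.congr_of_eventuallyEq ?_
    filter_upwards [(hxs.tendsto w).eventually he] with w' hw'
    simp only [hF]
    rw [hw', f.apply_symm_apply, pr_sig]
  have hfx : ∀ x, x ≠ q → f.symm (sig (pr (f x))) = x := by
    intro x hx
    rw [hf.sig_f hx, f.symm_apply_apply]
  have hFx : ∀ x, x ≠ q → F (pr (f x)) = pr (f (α g x)) := by
    intro x hx
    simp only [hF]
    rw [hfx x hx]
  have hginj : ∀ w w', α g (f.symm (sig w)) ≠ q → α g (f.symm (sig w')) ≠ q → F w = F w' →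
      w = w' := by
    intro w w' hw hw' h
    have h1 := hf.inj hw hw' h
    have h2 := f.symm.injective ((α g).injective h1)
    have h3 := congrArg pr h2
    rwa [pr_sig, pr_sig] at h3
  have hinf0 : Tendsto (fun w => α g (f.symm (sig w))) (cobounded ℂ) (𝓝 (α g q)) :=
    ((α g).continuous.tendsto q).comp hf.tendsto_symm
  by_cases hgq : α g q = q
  · have hne : ∀ w, α g (f.symm (sig w)) ≠ q := by
      intro w h
      rw [← hgq] at h
      exact hf.symm_ne w ((α g).injective h)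
    have hinf : Tendsto F (cobounded ℂ) (cobounded ℂ) := by
      refine hf.tendsto_pr.comp ?_
      rw [tendsto_nhdsWithin_iff]
      refine ⟨by rwa [hgq] at hinf0, Eventually.of_forall hne⟩
    obtain ⟨a, b, ha, hab⟩ := affine_of_proper (fun w => hFd w (hne w))
      (fun w w' h => hginj w w' (hne w) (hne w') h) hinf
    obtain ⟨T, hT⟩ := exists_aff a b ha
    refine ⟨T, fun x hx hgx => ?_⟩
    rw [← hf.sig_f hgx, ← hFx x hx, hab, ← hT, hf.sig_f hx]
  · set x₀ := α g⁻¹ q with hx₀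
    have hgx₀ : α g x₀ = q := ainv' α g q
    have hx₀q : x₀ ≠ q := by
      intro h
      rw [h] at hgx₀
      exact hgq hgx₀
    set w₀ := pr (f x₀) with hw₀
    set w₁ := pr (f (α g q)) with hw₁
    have hne : ∀ w, w ≠ w₀ → α g (f.symm (sig w)) ≠ q := by
      intro w hw h
      apply hw
      rw [← hgx₀] at h
      have h1 := (α g).injective h
      rw [hw₀, ← h1, f.apply_symm_apply, pr_sig]
    obtain ⟨a, b, ha, hab⟩ := moebius_of_pole (F := F) (w₀ := w₀) (w₁ := w₁)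
      (fun w hw => hFd w (hne w hw))
      (fun w hw w' hw' h => hginj w w' (hne w hw) (hne w' hw') h) (by
        intro w hw h
        have h1 := hf.inj (hne w hw) hgq h
        exact hf.symm_ne w ((α g).injective h1)) (by
        refine hf.tendsto_pr.comp ?_
        rw [tendsto_nhdsWithin_iff]
        refine ⟨?_, ?_⟩
        · have h1 : Tendsto (fun w => α g (f.symm (sig w))) (𝓝 w₀)
              (𝓝 (α g (f.symm (sig w₀)))) :=
            ((α g).continuous.comp hxs).tendsto w₀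
          rw [hw₀, hfx x₀ hx₀q, hgx₀] at h1
          exact h1.mono_left nhdsWithin_le_nhds
        · filter_upwards [self_mem_nhdsWithin] with w hw
          exact hne w hw) (by
        have h1 : ContinuousAt (fun x => pr (f x)) (α g q) :=
          ContinuousAt.comp (continuousAt_pr (hf.ne hgq)) f.continuous.continuousAt
        exact h1.tendsto.comp hinf0)
    obtain ⟨T, hT⟩ := exists_moebius a b w₁ ha
    refine ⟨T, fun x hx hgx => ?_⟩
    have hxw : pr (f x) ≠ w₀ := by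
      intro h
      have h1 := hf.inj hx hx₀q h
      rw [h1] at hgx
      exact hgx hgx₀
    obtain ⟨h1, h2⟩ := hab (pr (f x)) hxw
    rw [← hf.sig_f hgx, ← hFx x hx, h2, ← hT _ h1, hf.sig_f hx]

theorem complex_to_global {α : G →* (Sph E3 ≃ₜ Sph E3)} (hα : IsConvergenceAction α)
    (hco : CocompactOnTriples α) {φ : Sph E3 → ℂ} {W : Set (Sph E3)} (hW : IsOpen W)
    (hne : W.Nonempty) (hφ : IsCoord φ W)
    (hall : ∀ g, ∀ x ∈ W, α g x ∈ W → HolAt α g φ φ x) :
    ∃ (q : Sph E3) (f : Sph E3 ≃ₜ Sph E3), GCoord q f ∧ ∀ g x, x ≠ q → α g x ≠ q →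
      HolAt α g (fun y => pr (f y)) (fun y => pr (f y)) x := by
  have hE : 2 ≤ Module.finrank ℝ E3 := by simp
  have : ProperSpace E3 := FiniteDimensional.proper ℝ E3
  have hcS : CompactSpace (Sph E3) := isCompact_iff_compactSpace.1 (isCompact_sphere (0 : E3) 1)
  have hperf := perf_sph (E := E3) hE
  obtain ⟨h, V, p, q, hVW, L⟩ := exists_lox hperf hα hco hW hne
  obtain ⟨h₁, V₁, U₁, ψ, ψi, l, hl, hU₁, hU₁W, hV₁U₁, L₁, hgood, hlin⟩ :=
    exists_linear hW hφ hVW L hall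
  obtain ⟨M, hM⟩ := exists_aff l 0 hl
  set φ₂ : Sph E3 → Sph E3 := fun y => sig (ψ (φ y)) with hφ₂
  have hchart : IsChart φ₂ U₁ := by
    refine ⟨fun x hx => ?_, fun x hx y hy hxy => ?_, fun O hO hOo => ?_⟩
    · have h1 : ContinuousAt φ x := hφ.cont.continuousAt (hW.mem_nhds (hU₁W hx))
      have h2 : ContinuousAt (fun y => ψ (φ y)) x :=
        ContinuousAt.comp (hgood x hx).1.continuousAt h1
      exact (continuous_sig.continuousAt.comp h2).continuousWithinAt
    · apply hφ.inj (hU₁W hx) (hU₁W hy)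
      have h1 := congrArg pr hxy
      simp only [hφ₂, pr_sig] at h1
      rw [← (hgood x hx).2.2.1, ← (hgood y hy).2.2.1, h1]
    · rw [isOpen_iff_mem_nhds]
      rintro _ ⟨x, hx, rfl⟩
      have hxU := hO hx
      have h1 : Filter.map φ₂ (𝓝 x) = 𝓝 (φ₂ x) := by
        have e : φ₂ = sig ∘ ψ ∘ φ := rfl
        rw [e, ← Filter.map_map, ← Filter.map_map, hφ.map_nhds hW (hU₁W hxU),
          (hgood x hxU).2.2.2, map_sig]
        rfl
      rw [← h1]
      exact image_mem_map (hOo.mem_nhds hx)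
  have hM' : ∀ᶠ y in 𝓝 p, φ₂ (α h₁ y) = mo M (φ₂ y) := by
    filter_upwards [hlin] with y hy
    simp only [hφ₂]
    rw [hy, hM, add_zero]
  obtain ⟨f, hf⟩ := develop' hperf hU₁ hchart hV₁U₁ L₁ M hM'
  have hMi : ∀ z, mo M⁻¹ (sig z) = sig (l⁻¹ * z) := by
    intro z
    have h1 := hM (l⁻¹ * z)
    rw [add_zero, mul_inv_cancel_left₀ hl] at h1
    rw [← h1, mo_inv_mo]
  have hMk : ∀ (k : ℕ) z, mo (M⁻¹ ^ k) (sig z) = sig (l⁻¹ ^ k * z) := by
    intro k
    induction k with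
    | zero => intro z; rw [pow_zero, mo_one, pow_zero, one_mul]
    | succ k ih =>
      intro z
      rw [pow_succ, mo_mul, hMi, ih]
      congr 1
      rw [pow_succ]
      ring
  have hf' : ∀ x, x ≠ q → ∃ k : ℕ, ∀ᶠ y in 𝓝 x, α (h₁ ^ k) y ∈ U₁ ∧
      f y = sig (l⁻¹ ^ k * ψ (φ (α (h₁ ^ k) y))) := by
    intro x hx
    obtain ⟨k, hk⟩ := hf x hx
    refine ⟨k, ?_⟩
    filter_upwards [hk k le_rfl] with y hy
    refine ⟨hy.1, ?_⟩
    rw [hy.2]
    simp only [hφ₂]
    rw [hMk]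
  have hfne : ∀ x, x ≠ q → f x ≠ north := by
    intro x hx
    obtain ⟨k, hk⟩ := hf' x hx
    rw [hk.self_of_nhds.2]
    exact sig_ne _
  have hg : GCoord q f := by
    refine ⟨?_⟩
    obtain ⟨x, hx⟩ := f.surjective north
    by_cases hxq : x = q
    · rw [← hxq]; exact hx
    · exact absurd hx (hfne x hxq)
  refine ⟨q, f, hg, fun g x hx hgx => ?_⟩
  obtain ⟨k, hk⟩ := hf' x hx
  obtain ⟨k', hk'⟩ := hf' _ hgx
  have hlk : ∀ j : ℕ, l ^ j * l⁻¹ ^ j = 1 := by
    intro j
    rw [← mul_pow, mul_inv_cancel₀ hl, one_pow]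
  have h1 : HolAt α (h₁ ^ k) (fun y => pr (f y)) φ x := by
    refine ⟨fun w => ψi (l ^ k * w), ?_, ?_⟩
    · have e : l ^ k * pr (f x) = ψ (φ (α (h₁ ^ k) x)) := by
        rw [hk.self_of_nhds.2, pr_sig, ← mul_assoc, hlk, one_mul]
      have h2 : AnalyticAt ℂ ψi ((fun w : ℂ => l ^ k * w) (pr (f x))) := by
        simp only [e]
        exact (hgood _ hk.self_of_nhds.1).2.1
      have h3 : AnalyticAt ℂ (fun w : ℂ => l ^ k * w) (pr (f x)) :=
        analyticAt_const.mul analyticAt_id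
      exact AnalyticAt.comp (g := ψi) (f := fun w : ℂ => l ^ k * w) (x := pr (f x)) h2 h3
    · filter_upwards [hk] with y hy
      have e : l ^ k * pr (f y) = ψ (φ (α (h₁ ^ k) y)) := by
        rw [hy.2, pr_sig, ← mul_assoc, hlk, one_mul]
      rw [e, (hgood _ hy.1).2.2.1]
  have ex : α (h₁ ^ k' * g * (h₁ ^ k)⁻¹) (α (h₁ ^ k) x) = α (h₁ ^ k') (α g x) := by
    rw [amul, amul, ainv]
  have h2 : HolAt α (h₁ ^ k' * g * (h₁ ^ k)⁻¹) φ φ (α (h₁ ^ k) x) := by
    refine hall _ _ (hU₁W hk.self_of_nhds.1) ?_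
    rw [ex]
    exact hU₁W hk'.self_of_nhds.1
  have h3 : HolAt α (h₁ ^ k')⁻¹ φ (fun y => pr (f y)) (α (h₁ ^ k') (α g x)) := by
    refine ⟨fun z => l⁻¹ ^ k' * ψ z, ?_, ?_⟩
    · exact analyticAt_const.mul (hgood _ hk'.self_of_nhds.1).1
    · have hc : Tendsto (α (h₁ ^ k')⁻¹) (𝓝 (α (h₁ ^ k') (α g x))) (𝓝 (α g x)) := by
        have := (α (h₁ ^ k')⁻¹).continuous.tendsto (α (h₁ ^ k') (α g x))
        rwa [ainv] at this
      filter_upwards [hc.eventually hk'] with y hy
      rw [hy.2, pr_sig, ainv']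
  have h4 := h1.comp h2
  have e1 : α (h₁ ^ k' * g * (h₁ ^ k)⁻¹ * h₁ ^ k) x = α (h₁ ^ k') (α g x) := by
    rw [amul, ex]
  have h5 := h4.comp (by rw [e1]; exact h3)
  have e2 : (h₁ ^ k')⁻¹ * (h₁ ^ k' * g * (h₁ ^ k)⁻¹ * h₁ ^ k) = g := by group
  rwa [e2] at h5

end Pool.Agent.TH311.LC
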