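import Pool.Agent.TH311.LC.R6

/-!
# The representation, and the invariant standard complex structure
-/

set_option autoImplicit false

open Filter Topology Set Bornology
open Pool.Agent.TH289.C Pool.Agent.TH311.LM

namespace Pool.Agent.TH311.LC

theorem geometric {E : Type} [NormedAddCommGroup E] [InnerProductSpace ℝ E]
    [FiniteDimensional ℝ E] (hE : 2 ≤ Module.finrank ℝ E) {G : Type} [Group G]
    {α : G →* (Sph E ≃ₜ Sph E)} (hα : IsConvergenceAction α) (hco : CocompactOnTriples α)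
    (hne : Nonempty (Sph E)) (ρ : G →* IG E) (f : Sph E ≃ₜ Sph E)
    (hρ : ∀ g x, f (α g x) = mo (ρ g) (f x)) :
    (∀ K ⊆ Hyp E, IsCompact K →
        {g : G | ∃ v ∈ K, ((ρ g : IG E) : (ℝ × E) ≃L[ℝ] (ℝ × E)) v ∈ K}.Finite) ∧
      ∃ K ⊆ Hyp E, IsCompact K ∧ ∀ v ∈ Hyp E, ∃ g,
        ((ρ g : IG E) : (ℝ × E) ≃L[ℝ] (ℝ × E)) v ∈ K := by
  have : ProperSpace E := FiniteDimensional.proper ℝ E
  have hcS : CompactSpace (Sph E) := isCompact_iff_compactSpace.1 (isCompact_sphere (0 : E) 1)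
  have hperf : Perf (Sph E) := perf_sph hE
  refine ⟨?_, cocompact hE hco f ρ hρ⟩
  set τ := ContinuousLinearMap.fst ℝ ℝ E with hτ
  set ρ' : G →* ((ℝ × E) ≃L[ℝ] (ℝ × E)) := (IG E).subtype.comp ρ with hρ'
  have hiso : ∀ g, IsIso (ρ' g) := fun g => isoOf (ρ g)
  have hS : IsStrictCone (Lc E) τ := isStrictCone_Lc
  have hpres : ∀ g, ∀ v ∈ Lc E, ρ' g v ∈ Lc E := fun g v hv => isIso_pres (hiso g) hv
  have hHL : ∀ v ∈ Hyp E, v ∈ Lc E := fun v hv => mem_Lc_iff.2 ⟨by rw [hv.1]; exact one_pos, hv.2⟩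
  have hposH : ∀ v ∈ Lc E, 0 < τ v := fun v hv => (mem_Lc_iff.1 hv).2
  have heq : IsEquivariant α (Lc E) τ ρ' (fun x => ((1 : ℝ), (f x : E))) := by
    refine ⟨by fun_prop, fun x => Bd_Lc.2 ⟨rfl, norm_coe _⟩, hpres, fun g x => ?_⟩
    have h1 : ρ' g ((1 : ℝ), (f x : E)) =
        cf (ρ g) (f x) • ((1 : ℝ), (f (α g x) : E)) := by
      rw [hρ]
      exact mo_spec (ρ g) (f x)
    rw [h1, proj_smul (cf_pos (ρ g) (f x)).ne', proj_of_one]
    rfl
  obtain ⟨ξ⟩ := hne
  obtain ⟨y, z, hy, hz, hyz, -, -⟩ := three_near hperf ξ one_pos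
  set t : Fin 3 → Sph E := ![ξ, y, z] with ht
  have htne : ∀ i j, i ≠ j →
      ((1 : ℝ), (f (t i) : E)) ≠ ((1 : ℝ), (f (t j) : E)) := by
    intro i j hij hc
    have h1 : (f (t i) : E) = (f (t j) : E) := congrArg Prod.snd hc
    have h2 : t i = t j := f.injective (Subtype.ext h1)
    fin_cases i <;> fin_cases j <;> simp [ht] at hij h2
    · exact hy h2.symm
    · exact hz h2.symm
    · exact hy h2
    · exact hyz h2
    · exact hz h2
    · exact hyz h2.symm
  intro K hK hKc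
  have hc : ContinuousOn (proj τ) K := fun v hv =>
    (continuousAt_proj (hposH v (hHL v (hK hv))).ne').continuousWithinAt
  refine (proper (K := proj τ '' K) hα hS heq htne (hKc.image_of_continuousOn hc) ?_).subset ?_
  · rintro _ ⟨v, hv, rfl⟩
    exact proj_mem_Dom hS (hHL v (hK hv)) (hposH v (hHL v (hK hv)))
  · rintro g ⟨v, hv, hgv⟩
    refine ⟨proj τ v, ⟨v, hv, rfl⟩, ρ' g v, hgv, ?_⟩
    have hp := hposH v (hHL v (hK hv))
    conv_rhs => rw [proj.eq_1 τ v, map_smul, proj_smul (inv_ne_zero hp.ne')]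

variable {G : Type} [Group G]

theorem exists_rep {α : G →* (Sph E3 ≃ₜ Sph E3)} {q : Sph E3} {f : Sph E3 ≃ₜ Sph E3}
    (hT : ∀ g, ∃ T : IG E3, ∀ x, x ≠ q → α g x ≠ q → f (α g x) = mo T (f x)) :
    ∃ ρ : G →* IG E3, ∀ g x, f (α g x) = mo (ρ g) (f x) := by
  have hE : 2 ≤ Module.finrank ℝ E3 := by simp
  have : ProperSpace E3 := FiniteDimensional.proper ℝ E3
  have hcS : CompactSpace (Sph E3) := isCompact_iff_compactSpace.1 (isCompact_sphere (0 : E3) 1)
  have hperf : Perf (Sph E3) := perf_sph hE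
  have hglob : ∀ g, ∃ T : IG E3, ∀ x, f (α g x) = mo T (f x) := by
    intro g
    obtain ⟨T, hT⟩ := hT g
    refine ⟨T, fun x => ?_⟩
    have hcl : IsClosed {x | f (α g x) = mo T (f x)} :=
      isClosed_eq (f.continuous.comp (α g).continuous) ((continuous_mo T).comp f.continuous)
    have hx : x ∈ closure {x : Sph E3 | x ≠ q ∧ x ≠ α g⁻¹ q} := by
      rw [Metric.mem_closure_iff]
      intro ε hε
      obtain ⟨y, hy, hyx⟩ := off_two hperf x q (α g⁻¹ q) hε
      exact ⟨y, hy, by rwa [dist_comm]⟩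
    refine closure_minimal (fun y hy => ?_) hcl hx
    refine hT y hy.1 fun h => hy.2 ?_
    rw [← h, ainv]
  choose T hT using hglob
  have huniq : ∀ S S' : IG E3, (∀ x, mo S (f x) = mo S' (f x)) → S = S' := by
    intro S S' h
    refine eq_of_agree hE (x := q) (Eventually.of_forall fun y => ?_)
    have := h (f.symm y)
    rwa [f.apply_symm_apply] at this
  refine ⟨{ toFun := T, map_one' := ?_, map_mul' := ?_ }, hT⟩
  · refine huniq _ _ fun x => ?_
    rw [← hT, aone, mo_one]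
  · intro g g'
    refine huniq _ _ fun x => ?_
    rw [← hT, amul, hT, hT, mo_mul]

theorem isCoord_pr (f : Sph E3 ≃ₜ Sph E3) : IsCoord (fun y => pr (f y)) {x | f x ≠ north} := by
  refine ⟨fun x hx => ?_, fun x hx y hy hxy => ?_, fun O hO hOo => ?_⟩
  · exact ((continuousAt_pr hx).comp f.continuous.continuousAt).continuousWithinAt
  · apply f.injective
    rw [← sig_pr hx, ← sig_pr hy]
    exact congrArg sig hxy
  · have h1 : (fun y => pr (f y)) '' O = (fun z => f.symm (sig z)) ⁻¹' O := by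
      ext z
      constructor
      · rintro ⟨y, hy, rfl⟩
        change f.symm (sig (pr (f y))) ∈ O
        rw [sig_pr (hO hy), f.symm_apply_apply]
        exact hy
      · intro hz
        exact ⟨f.symm (sig z), hz, by simp only [f.apply_symm_apply, pr_sig]⟩
    rw [h1]
    exact hOo.preimage (f.symm.continuous.comp continuous_sig)

theorem HolAt.of_punctured {X : Type} [MetricSpace X] [CompactSpace X] {α : G →* (X ≃ₜ X)} {g : G}
    {φ ψ : X → ℂ} {W : Set X} (hW : IsOpen W) (hφ : IsCoord φ W) {x : X} (hx : x ∈ W)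
    (hc : ContinuousAt (fun y => ψ (α g y)) x) (h : ∀ᶠ y in 𝓝[≠] x, HolAt α g φ ψ y) :
    HolAt α g φ ψ x := by
  have : Nonempty X := ⟨x⟩
  have hinv : LeftInvOn (Function.invFunOn φ W) φ W := hφ.inj.leftInvOn_invFunOn
  set H : ℂ → ℂ := fun z => ψ (α g (Function.invFunOn φ W z)) with hH
  have hHφ : ∀ y ∈ W, H (φ y) = ψ (α g y) := by
    intro y hy
    simp only [hH]
    rw [hinv hy]
  refine ⟨H, ?_, ?_⟩
  · apply Complex.analyticAt_of_differentiable_on_punctured_nhds_of_continuousAt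
    · rw [eventually_nhdsWithin_iff, ← hφ.map_nhds hW hx, eventually_map]
      rw [eventually_nhdsWithin_iff] at h
      filter_upwards [h, hW.mem_nhds hx] with y hy hyW hne
      obtain ⟨Hy, hHy, he⟩ := hy (fun h0 => hne (by rw [h0]; rfl))
      refine hHy.differentiableAt.congr_of_eventuallyEq ?_
      change ∀ᶠ z in 𝓝 (φ y), H z = Hy z
      rw [← hφ.map_nhds hW hyW, eventually_map]
      filter_upwards [he, hW.mem_nhds hyW] with y' h1 h2
      rw [hHφ y' h2, h1]
    · change Tendsto H (𝓝 (φ x)) (𝓝 (H (φ x)))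
      rw [← hφ.map_nhds hW hx, tendsto_map'_iff, hHφ x hx]
      refine hc.tendsto.congr' ?_
      filter_upwards [hW.mem_nhds hx] with y hy
      exact (hHφ y hy).symm
  · filter_upwards [hW.mem_nhds hx] with y hy
    exact (hHφ y hy).symm

end Pool.Agent.TH311.LC
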