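import Pool.Agent.TH311.LC.R7

/-!
# The two standard coordinates, and the main theorem
-/

set_option autoImplicit false

open Filter Topology Set Bornology
open Pool.Agent.TH289.C Pool.Agent.TH311.LM

namespace Pool.Agent.TH311.LC

theorem pr_north : pr north = 0 := by
  apply Complex.ext <;> simp [pr, north]

theorem exists_J : ∃ J : IG E3, ∀ v, (pr v)⁻¹ = pr (mo J v) ∧ (mo J v ≠ north ↔ v ≠ sig 0) := by
  obtain ⟨J, hJ⟩ := exists_inv
  have h0 : mo J (sig 0) = north := by
    have h1 : Tendsto (fun z => mo J (sig z)) (𝓝[≠] 0) (𝓝 (mo J (sig 0))) :=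
      (((continuous_mo J).comp continuous_sig).tendsto 0).mono_left nhdsWithin_le_nhds
    have h2 : Tendsto (fun z => mo J (sig z)) (𝓝[≠] 0) (𝓝 north) := by
      refine (tendsto_sig.comp (tendsto_inv₀_nhdsNE_zero (α := ℂ))).congr' ?_
      filter_upwards [self_mem_nhdsWithin] with z hz
      exact (hJ z hz).symm
    exact tendsto_nhds_unique h1 h2
  have hn : mo J north = sig 0 := by
    have h1 : Tendsto (fun z => mo J (sig z)) (cobounded ℂ) (𝓝 (mo J north)) :=
      ((continuous_mo J).tendsto north).comp tendsto_sig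
    have h2 : Tendsto (fun z => mo J (sig z)) (cobounded ℂ) (𝓝 (sig 0)) := by
      refine ((continuous_sig.tendsto 0).comp (tendsto_inv₀_cobounded (α := ℂ))).congr' ?_
      have : ∀ᶠ z in cobounded ℂ, z ≠ 0 := isBounded_def.1 (isBounded_singleton (α := ℂ) (x := 0))
      filter_upwards [this] with z hz
      exact (hJ z hz).symm
    exact tendsto_nhds_unique h1 h2
  refine ⟨J, fun v => ⟨?_, ?_⟩⟩
  · by_cases hv : v = north
    · rw [hv, hn, pr_sig, pr_north, inv_zero]
    · by_cases hz : pr v = 0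
      · have : v = sig 0 := by rw [← hz, sig_pr hv]
        rw [this, h0, pr_north, pr_sig, inv_zero]
      · have h1 := hJ (pr v) hz
        rw [sig_pr hv] at h1
        rw [h1, pr_sig]
  · rw [not_iff_not]
    constructor
    · intro h
      rw [← h0] at h
      exact (moH J).injective h
    · rintro rfl
      exact h0

/-- The two coordinates of the Riemann sphere. -/
noncomputable def zch (f : Sph E3 → Sph E3) (i : Bool) (y : Sph E3) : ℂ :=
  if i then pr (f y) else (pr (f y))⁻¹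

/-- Their domains. -/
def zW (f : Sph E3 → Sph E3) (i : Bool) : Set (Sph E3) := {x | f x ≠ if i then north else sig 0}

theorem zch_homeo (f : Sph E3 ≃ₜ Sph E3) (i : Bool) : ∃ f' : Sph E3 ≃ₜ Sph E3,
    zch f i = (fun y => pr (f' y)) ∧ zW f i = {x | f' x ≠ north} := by
  cases i
  · obtain ⟨J, hJ⟩ := exists_J
    refine ⟨f.trans (moH J), ?_, ?_⟩
    · funext y
      exact (hJ (f y)).1
    · ext x
      exact (hJ (f x)).2.symm
  · exact ⟨f, rfl, rfl⟩

theorem zch_coord (f : Sph E3 ≃ₜ Sph E3) (i : Bool) : IsCoord (zch f i) (zW f i) := by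
  obtain ⟨f', h1, h2⟩ := zch_homeo f i
  rw [h1, h2]
  exact isCoord_pr f'

theorem zW_open (f : Sph E3 ≃ₜ Sph E3) (i : Bool) : IsOpen (zW f i) := by
  obtain ⟨f', h1, h2⟩ := zch_homeo f i
  rw [h2]
  exact isOpen_ne.preimage f'.continuous

theorem zW_cover (f : Sph E3 → Sph E3) : ⋃ i, zW f i = univ := by
  rw [eq_univ_iff_forall]
  intro x
  rw [mem_iUnion]
  by_cases h : f x = north
  · refine ⟨false, ?_⟩
    change f x ≠ sig 0
    rw [h]
    exact (sig_ne 0).symm
  · exact ⟨true, h⟩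

theorem ev_ne (a x : Sph E3) : ∀ᶠ y in 𝓝[≠] x, y ≠ a := by
  by_cases h : x = a
  · rw [h]
    exact self_mem_nhdsWithin
  · exact mem_nhdsWithin_of_mem_nhds (isOpen_ne.mem_nhds h)

variable {G : Type} [Group G]

theorem zch_change (α : G →* (Sph E3 ≃ₜ Sph E3)) [CompactSpace (Sph E3)] (f : Sph E3 ≃ₜ Sph E3)
    (i j : Bool) {y : Sph E3} (h1 : f y ≠ north) (h2 : f y ≠ sig 0) :
    HolAt α 1 (zch f i) (zch f j) y := by
  have h0 : pr (f y) ≠ 0 := by
    intro h
    apply h2
    rw [← sig_pr h1, h]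
  cases i <;> cases j
  · exact ⟨fun z => z, analyticAt_id, Eventually.of_forall fun y => by rw [aone]⟩
  · exact ⟨fun z => z⁻¹, analyticAt_id.inv (inv_ne_zero h0), Eventually.of_forall fun y => by
      rw [aone]; simp [zch]⟩
  · exact ⟨fun z => z⁻¹, analyticAt_id.inv h0, Eventually.of_forall fun y => by
      rw [aone]; simp [zch]⟩
  · exact ⟨fun z => z, analyticAt_id, Eventually.of_forall fun y => by rw [aone]⟩

theorem standard {α : G →* (Sph E3 ≃ₜ Sph E3)} {q : Sph E3} {f : Sph E3 ≃ₜ Sph E3}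
    (hg : GCoord q f) (hol : ∀ g x, x ≠ q → α g x ≠ q →
      HolAt α g (fun y => pr (f y)) (fun y => pr (f y)) x) (g : G) (i j : Bool) (x : Sph E3)
    (hx : x ∈ zW f i) (hgx : α g x ∈ zW f j) : HolAt α g (zch f i) (zch f j) x := by
  have : ProperSpace E3 := FiniteDimensional.proper ℝ E3
  have hcS : CompactSpace (Sph E3) := isCompact_iff_compactSpace.1 (isCompact_sphere (0 : E3) 1)
  refine HolAt.of_punctured (zW_open f i) (zch_coord f i) hx ?_ ?_
  · have h1 : ContinuousAt (zch f j) (α g x) :=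
      (zch_coord f j).cont.continuousAt ((zW_open f j).mem_nhds hgx)
    exact ContinuousAt.comp h1 (α g).continuous.continuousAt
  · filter_upwards [ev_ne q x, ev_ne (f.symm (sig 0)) x, ev_ne (α g⁻¹ q) x,
      ev_ne (α g⁻¹ (f.symm (sig 0))) x] with y h1 h2 h3 h4
    have e1 : f y ≠ north := hg.ne h1
    have e2 : f y ≠ sig 0 := by
      intro h
      apply h2
      rw [← h, f.symm_apply_apply]
    have h3' : α g y ≠ q := by
      intro h
      apply h3
      rw [← h, ainv]
    have e3 : f (α g y) ≠ north := hg.ne h3'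
    have e4 : f (α g y) ≠ sig 0 := by
      intro h
      apply h4
      rw [← h, f.symm_apply_apply, ainv]
    have k1 := zch_change α f i true e1 e2
    have k2 : HolAt α g (zch f true) (zch f true) (α 1 y) := by
      rw [aone]
      exact hol g y h1 h3'
    have k3 := k1.comp k2
    have k4 : HolAt α 1 (zch f true) (zch f j) (α (g * 1) y) := by
      rw [mul_one]
      exact zch_change α f true j e3 e4
    have k5 := k3.comp k4
    rwa [one_mul, mul_one] at k5

/-- The main theorem. -/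
theorem main_complex {α : G →* (Sph E3 ≃ₜ Sph E3)} (hα : IsConvergenceAction α)
    (hco : CocompactOnTriples α) {φ : Sph E3 → ℂ} {W : Set (Sph E3)} (hW : IsOpen W)
    (hne : W.Nonempty) (hφ : IsCoord φ W)
    (hall : ∀ g, ∀ x ∈ W, α g x ∈ W → HolAt α g φ φ x) :
    ∃ (ρ : G →* IG E3) (f : Sph E3 ≃ₜ Sph E3), (∀ g x, f (α g x) = mo (ρ g) (f x)) ∧
      (∀ K ⊆ Hyp E3, IsCompact K →
        {g : G | ∃ v ∈ K, ((ρ g : IG E3) : (ℝ × E3) ≃L[ℝ] (ℝ × E3)) v ∈ K}.Finite) ∧
      (∃ K ⊆ Hyp E3, IsCompact K ∧ ∀ v ∈ Hyp E3, ∃ g,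
        ((ρ g : IG E3) : (ℝ × E3) ≃L[ℝ] (ℝ × E3)) v ∈ K) ∧
      ∀ g i j x, x ∈ zW f i → α g x ∈ zW f j → HolAt α g (zch f i) (zch f j) x := by
  obtain ⟨q, f, hg, hol⟩ := complex_to_global hα hco hW hne hφ hall
  obtain ⟨ρ, hρ⟩ := exists_rep (α := α) (q := q) (f := f) fun g => moebius_of_hol hg (hol g)
  obtain ⟨h1, h2⟩ := geometric (by simp) hα hco ⟨q⟩ ρ f hρ
  exact ⟨ρ, f, hρ, h1, h2, standard hg hol⟩

end Pool.Agent.TH311.LC
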